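import Pool.Agent.Helper57.LJ.Defs

/-! The average of a digit indicator over a short window is a combination of characters with
bounded coefficient sum. -/

namespace Pool.Agent.Helper78.LJ

open Finset
open Pool.Agent.Helper57.PC (Fr ch Wn e)
open Pool.Agent.Helper57.LJ (dig)

/-- orthogonality of the characters modulo `m` -/
lemma orth {m : ℕ} (hm : 0 < m) {ζ : ℂ} (hζ : IsPrimitiveRoot ζ m) (hn : ‖ζ‖ = 1)
    (a b : ℕ) :
    ∑ k ∈ range m, ζ ^ (k * a) * (starRingEnd ℂ) (ζ ^ (k * b))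
      = if a % m = b % m then (m : ℂ) else 0 := by
  have h0 : ζ ≠ 0 := by
    intro h; rw [h, norm_zero] at hn; exact zero_ne_one hn
  have e1 : ∀ k ∈ range m, ζ ^ (k * a) * (starRingEnd ℂ) (ζ ^ (k * b))
      = (ζ ^ a * (ζ ^ b)⁻¹) ^ k := by
    intro k _
    rw [map_pow, ← Complex.inv_eq_conj hn, mul_pow, ← pow_mul, inv_pow, inv_pow, ← pow_mul,
      mul_comm k a, mul_comm k b]
  rw [Finset.sum_congr rfl e1]
  by_cases h : a % m = b % m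
  · rw [if_pos h]
    have e2 : ζ ^ a = ζ ^ b := by
      rw [pow_eq_pow_mod a hζ.pow_eq_one, pow_eq_pow_mod b hζ.pow_eq_one, h]
    have e3 : ζ ^ a * (ζ ^ b)⁻¹ = 1 := by
      rw [e2]; exact mul_inv_cancel₀ (pow_ne_zero _ h0)
    rw [e3]
    simp
  · rw [if_neg h]
    have e3 : ζ ^ a * (ζ ^ b)⁻¹ ≠ 1 := by
      intro h1
      apply h
      have e2 : ζ ^ a = ζ ^ b := by
        rwa [mul_inv_eq_one₀ (pow_ne_zero _ h0)] at h1
      rw [pow_eq_pow_mod a hζ.pow_eq_one, pow_eq_pow_mod b hζ.pow_eq_one] at e2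
      exact hζ.pow_inj (Nat.mod_lt _ hm) (Nat.mod_lt _ hm) e2
    rw [geom_sum_eq e3]
    have e4 : (ζ ^ a * (ζ ^ b)⁻¹) ^ m = 1 := by
      rw [mul_pow, inv_pow, ← pow_mul, ← pow_mul, mul_comm a, mul_comm b, pow_mul, pow_mul,
        hζ.pow_eq_one]
      simp
    rw [e4, sub_self, zero_div]

/-- counting through characters -/
lemma count_eq {m : ℕ} (hm : 0 < m) {ζ : ℂ} (hζ : IsPrimitiveRoot ζ m) (hn : ‖ζ‖ = 1)
    (I : Finset ℕ) (hI : I ⊆ range m) (J n : ℕ) :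
    ((#{j ∈ range J | (n + j) % m ∈ I} : ℕ) : ℂ)
      = ∑ k ∈ range m, ((1 / (m : ℂ)) * (∑ r ∈ I, (starRingEnd ℂ) (ζ ^ (k * r)))
          * (∑ j ∈ range J, ζ ^ (k * j))) * ζ ^ (k * n) := by
  have hm' : (m : ℂ) ≠ 0 := Nat.cast_ne_zero.2 hm.ne'
  have e1 : ∀ k ∈ range m, ((1 / (m : ℂ)) * (∑ r ∈ I, (starRingEnd ℂ) (ζ ^ (k * r)))
          * (∑ j ∈ range J, ζ ^ (k * j))) * ζ ^ (k * n)
      = (1 / (m : ℂ)) * ∑ j ∈ range J, ∑ r ∈ I,
          ζ ^ (k * (n + j)) * (starRingEnd ℂ) (ζ ^ (k * r)) := by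
    intro k _
    have e2 : ∑ j ∈ range J, ∑ r ∈ I, ζ ^ (k * (n + j)) * (starRingEnd ℂ) (ζ ^ (k * r))
        = (∑ r ∈ I, (starRingEnd ℂ) (ζ ^ (k * r))) * (∑ j ∈ range J, ζ ^ (k * j))
          * ζ ^ (k * n) := by
      rw [mul_comm (∑ r ∈ I, (starRingEnd ℂ) (ζ ^ (k * r))), Finset.sum_mul_sum,
        Finset.sum_mul]
      refine Finset.sum_congr rfl fun j _ => ?_
      rw [Finset.sum_mul]
      refine Finset.sum_congr rfl fun r _ => ?_
      rw [mul_add, pow_add]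
      ring
    rw [e2]
    ring
  rw [Finset.sum_congr rfl e1, ← Finset.mul_sum, Finset.sum_comm]
  have e3 : ∀ j ∈ range J, ∑ k ∈ range m, ∑ r ∈ I,
      ζ ^ (k * (n + j)) * (starRingEnd ℂ) (ζ ^ (k * r))
      = if (n + j) % m ∈ I then (m : ℂ) else 0 := by
    intro j _
    rw [Finset.sum_comm]
    simp_rw [orth hm hζ hn]
    have e4 : ∀ r ∈ I, (if (n + j) % m = r % m then (m : ℂ) else 0)
        = if (n + j) % m = r then (m : ℂ) else 0 := by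
      intro r hr
      rw [Nat.mod_eq_of_lt (Finset.mem_range.1 (hI hr))]
    rw [Finset.sum_congr rfl e4, Finset.sum_ite_eq]
  rw [Finset.sum_congr rfl e3, ← Finset.sum_filter, Finset.sum_const, nsmul_eq_mul]
  field_simp

/-- Parseval -/
lemma parseval {m : ℕ} (hm : 0 < m) {ζ : ℂ} (hζ : IsPrimitiveRoot ζ m) (hn : ‖ζ‖ = 1)
    (S : Finset ℕ) (hS : S ⊆ range m) :
    ∑ k ∈ range m, ‖∑ j ∈ S, ζ ^ (k * j)‖ ^ 2 = (m : ℝ) * #S := by
  have key : ((∑ k ∈ range m, ‖∑ j ∈ S, ζ ^ (k * j)‖ ^ 2 : ℝ) : ℂ) = ((m : ℝ) * #S : ℝ) := by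
    push_cast
    have e1 : ∀ k ∈ range m, ((‖∑ j ∈ S, ζ ^ (k * j)‖ : ℝ) : ℂ) ^ 2
        = ∑ i ∈ S, ∑ j ∈ S, ζ ^ (k * i) * (starRingEnd ℂ) (ζ ^ (k * j)) := by
      intro k _
      rw [← Complex.mul_conj', map_sum, Finset.sum_mul_sum]
    rw [Finset.sum_congr rfl e1, Finset.sum_comm]
    have e2 : ∀ i ∈ S, ∑ k ∈ range m, ∑ j ∈ S,
        ζ ^ (k * i) * (starRingEnd ℂ) (ζ ^ (k * j)) = (m : ℂ) := by
      intro i hi
      rw [Finset.sum_comm]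
      simp_rw [orth hm hζ hn]
      have e4 : ∀ j ∈ S, (if i % m = j % m then (m : ℂ) else 0)
          = if i = j then (m : ℂ) else 0 := by
        intro j hj
        rw [Nat.mod_eq_of_lt (Finset.mem_range.1 (hS hi)),
          Nat.mod_eq_of_lt (Finset.mem_range.1 (hS hj))]
      rw [Finset.sum_congr rfl e4, Finset.sum_ite_eq, if_pos hi]
    rw [Finset.sum_congr rfl e2, Finset.sum_const, nsmul_eq_mul]
    ring
  exact_mod_cast key

/-- the coefficient sum -/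
lemma coef_le {m : ℕ} (hm : 0 < m) {ζ : ℂ} (hζ : IsPrimitiveRoot ζ m) (hn : ‖ζ‖ = 1)
    (I : Finset ℕ) (hI : I ⊆ range m) (J : ℕ) (hJ : J ≤ m) :
    ∑ k ∈ range m, ‖(1 / (m : ℂ)) * (∑ r ∈ I, (starRingEnd ℂ) (ζ ^ (k * r)))
          * (∑ j ∈ range J, ζ ^ (k * j))‖ ≤ Real.sqrt (#I * J) := by
  have hm' : (0 : ℝ) < m := Nat.cast_pos.2 hm
  have e1 : ∀ k ∈ range m, ‖(1 / (m : ℂ)) * (∑ r ∈ I, (starRingEnd ℂ) (ζ ^ (k * r)))
          * (∑ j ∈ range J, ζ ^ (k * j))‖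
      = (1 / (m : ℝ)) * (‖∑ r ∈ I, ζ ^ (k * r)‖ * ‖∑ j ∈ range J, ζ ^ (k * j)‖) := by
    intro k _
    rw [norm_mul, norm_mul, ← map_sum, RCLike.norm_conj, norm_div, norm_one, Complex.norm_natCast]
    ring
  rw [Finset.sum_congr rfl e1, ← Finset.mul_sum]
  have e2 := Finset.sum_mul_sq_le_sq_mul_sq (range m) (fun k => ‖∑ r ∈ I, ζ ^ (k * r)‖)
    (fun k => ‖∑ j ∈ range J, ζ ^ (k * j)‖)
  simp only at e2
  rw [parseval hm hζ hn I hI, parseval hm hζ hn (range J) (Finset.range_subset_range.2 hJ),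
    Finset.card_range] at e2
  apply Real.le_sqrt_of_sq_le
  rw [mul_pow]
  calc (1 / (m : ℝ)) ^ 2 * (∑ k ∈ range m, ‖∑ r ∈ I, ζ ^ (k * r)‖ * ‖∑ j ∈ range J, ζ ^ (k * j)‖) ^ 2
      ≤ (1 / (m : ℝ)) ^ 2 * ((m : ℝ) * #I * ((m : ℝ) * J)) :=
        mul_le_mul_of_nonneg_left e2 (by positivity)
    _ = #I * J := by field_simp

lemma card_digit_le (b : ℕ) (q d : ℕ) :
    #{r ∈ range (b ^ (q + 1)) | dig b q r = d} ≤ b ^ q := by
  rcases Nat.eq_zero_or_pos b with rfl | hb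
  · rw [pow_succ, mul_zero, Finset.range_zero, Finset.filter_empty, Finset.card_empty]
    exact Nat.zero_le _
  have hq : 0 < b ^ q := Nat.pow_pos hb
  calc #{r ∈ range (b ^ (q + 1)) | dig b q r = d}
      ≤ #(range (b ^ q)) := by
        refine Finset.card_le_card_of_injOn (fun r => r % b ^ q) ?_ ?_
        · intro r _
          exact Finset.mem_coe.2 (Finset.mem_range.2 (Nat.mod_lt _ hq))
        · intro r hr s hs hrs
          have hr' := Finset.mem_filter.1 (Finset.mem_coe.1 hr)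
          have hs' := Finset.mem_filter.1 (Finset.mem_coe.1 hs)
          have h1 : r / b ^ q < b := by
            apply Nat.div_lt_of_lt_mul
            rw [← pow_succ]; exact Finset.mem_range.1 hr'.1
          have h2 : s / b ^ q < b := by
            apply Nat.div_lt_of_lt_mul
            rw [← pow_succ]; exact Finset.mem_range.1 hs'.1
          have h3 : r / b ^ q = s / b ^ q := by
            have h4 := hr'.2.trans hs'.2.symm
            unfold dig at h4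
            rwa [Nat.mod_eq_of_lt h1, Nat.mod_eq_of_lt h2] at h4
          have h5 : r % b ^ q = s % b ^ q := hrs
          rw [← Nat.div_add_mod r (b ^ q), ← Nat.div_add_mod s (b ^ q), h3, h5]
    _ = b ^ q := Finset.card_range _

lemma dig_mod (b q n : ℕ) : dig b q (n % b ^ (q + 1)) = dig b q n := by
  unfold dig
  rw [pow_succ, Nat.mod_mul_right_div_self, Nat.mod_mod]

theorem wn_digit (b : ℕ) (hb : 2 ≤ b) (q d : ℕ) (ρ : ℝ) (hρ : 0 < ρ) (hρ1 : ρ ≤ 1) :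
    Wn (1 / Real.sqrt ρ) (fun n =>
      ((#{j ∈ range (Nat.floor (ρ * (b:ℝ)^q) + 1) | dig b q (n + j) = d} : ℕ) : ℂ)
        / ((Nat.floor (ρ * (b:ℝ)^q) + 1 : ℕ) : ℂ)) := by
  have hbq : 0 < b ^ q := Nat.pow_pos (by omega)
  have hm : 0 < b ^ (q + 1) := Nat.pow_pos (by omega)
  have hbqR : (0 : ℝ) < (b : ℝ) ^ q := by exact_mod_cast hbq
  obtain ⟨J, hJ⟩ : ∃ J : ℕ, J = Nat.floor (ρ * (b:ℝ)^q) + 1 := ⟨_, rfl⟩
  have hJ1 : ρ * (b : ℝ) ^ q < J := by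
    rw [hJ]; push_cast; exact Nat.lt_floor_add_one _
  have hJ0 : (0 : ℝ) < J := lt_trans (mul_pos hρ hbqR) hJ1
  have hJm : J ≤ b ^ (q + 1) := by
    have h1 : Nat.floor (ρ * (b:ℝ)^q) ≤ b ^ q := by
      apply Nat.floor_le_of_le
      push_cast
      nlinarith
    rw [hJ, pow_succ]
    nlinarith
  rw [← hJ]
  obtain ⟨m, hmm⟩ : ∃ m : ℕ, m = b ^ (q + 1) := ⟨_, rfl⟩
  rw [← hmm] at hm hJm
  obtain ⟨I, hI⟩ : ∃ I : Finset ℕ, I = {r ∈ range m | dig b q r = d} := ⟨_, rfl⟩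
  have hIm : I ⊆ range m := by rw [hI]; exact Finset.filter_subset _ _
  have hIc : #I ≤ b ^ q := by rw [hI, hmm]; exact card_digit_le b q d
  have hζ : IsPrimitiveRoot (Complex.exp (2 * Real.pi * Complex.I / m)) m :=
    Complex.isPrimitiveRoot_exp m hm.ne'
  have hn : ‖Complex.exp (2 * Real.pi * Complex.I / m)‖ = 1 := hζ.norm'_eq_one hm.ne'
  obtain ⟨ζ, hζe⟩ : ∃ ζ : ℂ, ζ = Complex.exp (2 * Real.pi * Complex.I / m) := ⟨_, rfl⟩
  rw [← hζe] at hζ hn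
  have hmem : ∀ n j : ℕ, dig b q (n + j) = d ↔ (n + j) % m ∈ I := by
    intro n j
    rw [hI, Finset.mem_filter, hmm, dig_mod]
    exact ⟨fun h => ⟨Finset.mem_range.2 (Nat.mod_lt _ (hmm ▸ hm)), h⟩, fun h => h.2⟩
  refine ⟨Fin m, inferInstance, fun k => ((1 / (m : ℂ)) *
      (∑ r ∈ I, (starRingEnd ℂ) (ζ ^ ((k : ℕ) * r))) * (∑ j ∈ range J, ζ ^ ((k : ℕ) * j))) / (J : ℂ),
    fun k => (((k : ℕ) / (m : ℝ) : ℝ) : Fr), ?_, ?_⟩
  · have e1 : ∀ k : Fin m, ‖((1 / (m : ℂ)) *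
      (∑ r ∈ I, (starRingEnd ℂ) (ζ ^ ((k : ℕ) * r))) * (∑ j ∈ range J, ζ ^ ((k : ℕ) * j))) / (J : ℂ)‖
        = ‖((1 / (m : ℂ)) *
      (∑ r ∈ I, (starRingEnd ℂ) (ζ ^ ((k : ℕ) * r))) * (∑ j ∈ range J, ζ ^ ((k : ℕ) * j)))‖ / J := by
      intro k
      rw [norm_div, Complex.norm_natCast]
    rw [Finset.sum_congr rfl fun k _ => e1 k, ← Finset.sum_div]
    rw [Fin.sum_univ_eq_sum_range (fun k => ‖((1 / (m : ℂ)) *
      (∑ r ∈ I, (starRingEnd ℂ) (ζ ^ (k * r))) * (∑ j ∈ range J, ζ ^ (k * j)))‖) m]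
    have e2 := coef_le hm hζ hn I hIm J hJm
    rw [div_le_iff₀ hJ0]
    refine e2.trans ?_
    have e3 : (1 / Real.sqrt ρ) * (J : ℝ) = Real.sqrt ((J : ℝ) ^ 2 / ρ) := by
      rw [Real.sqrt_div (by positivity), Real.sqrt_sq hJ0.le]
      ring
    rw [e3]
    apply Real.sqrt_le_sqrt
    rw [le_div_iff₀ hρ]
    have e4 : (#I : ℝ) ≤ (b : ℝ) ^ q := by exact_mod_cast hIc
    have e5 : (#I : ℝ) * ρ ≤ J := by
      calc (#I : ℝ) * ρ ≤ (b : ℝ) ^ q * ρ := mul_le_mul_of_nonneg_right e4 hρ.le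
        _ = ρ * (b : ℝ) ^ q := mul_comm _ _
        _ ≤ J := hJ1.le
    nlinarith
  · intro n
    have e1 : ∀ k : ℕ, ch n (((k / (m : ℝ) : ℝ)) : Fr) = ζ ^ (k * n) := by
      intro k
      rw [Pool.Agent.Helper57.PC.ch_eq_e, hζe]
      unfold e
      rw [← Complex.exp_nat_mul]
      congr 1
      push_cast
      ring
    have e2 : ∀ k : Fin m, ((1 / (m : ℂ)) *
        (∑ r ∈ I, (starRingEnd ℂ) (ζ ^ ((k : ℕ) * r))) * (∑ j ∈ range J, ζ ^ ((k : ℕ) * j))) / (J : ℂ)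
          * ch n ((((k : ℕ) / (m : ℝ) : ℝ)) : Fr)
        = (((1 / (m : ℂ)) *
        (∑ r ∈ I, (starRingEnd ℂ) (ζ ^ ((k : ℕ) * r))) * (∑ j ∈ range J, ζ ^ ((k : ℕ) * j)))
          * ζ ^ ((k : ℕ) * n)) / J := by
      intro k
      rw [e1]
      ring
    rw [Finset.sum_congr rfl fun k _ => e2 k, ← Finset.sum_div]
    rw [Fin.sum_univ_eq_sum_range (fun k => (((1 / (m : ℂ)) *
        (∑ r ∈ I, (starRingEnd ℂ) (ζ ^ (k * r))) * (∑ j ∈ range J, ζ ^ (k * j)))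
          * ζ ^ (k * n))) m]
    rw [← count_eq hm hζ hn I hIm J n]
    simp_rw [hmem]

end Pool.Agent.Helper78.LJ
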