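import Pool.Agent.Helper57.LJ.Exp

/-! From powers of the base to all `x`. -/

namespace Pool.Agent.Helper78.LJ

open Finset Filter
open Pool.Agent.Helper57.LJ (dig)
open Pool.Agent.Helper57.PC (Fr ch Wn e)

theorem all_x (b : ℕ) (hb : 2 ≤ b) (c : ℝ) (hc : 0 < c) (F : ℕ → ℝ) (hF : Monotone F)
    (h : Filter.Eventually (fun K : ℕ => ((b:ℝ)^K)^(1+c) ≤ F (2*b^K)) Filter.atTop) :
    Filter.Eventually (fun x : ℕ => (x:ℝ)^(1+c/2) ≤ F x) Filter.atTop := by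
  have hb0 : (0 : ℝ) < b := by exact_mod_cast (by omega : 0 < b)
  obtain ⟨K0, hK0⟩ := Filter.eventually_atTop.1 h
  have h1 : Tendsto (fun x : ℕ => (x : ℝ) ^ (c / 2)) atTop atTop :=
    (tendsto_rpow_atTop (by positivity)).comp tendsto_natCast_atTop_atTop
  filter_upwards [h1.eventually_ge_atTop ((2 * b : ℝ) ^ (1 + c)),
    Filter.eventually_ge_atTop (2 * b ^ K0 + 2)] with x hx1 hx2
  have hx2' : x / 2 ≠ 0 := by omega
  have hK : K0 ≤ Nat.log b (x / 2) := by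
    apply Nat.le_log_of_pow_le (by omega)
    omega
  have hlow : b ^ (Nat.log b (x / 2)) ≤ x / 2 := Nat.pow_log_le_self b hx2'
  have hup : x / 2 < b ^ (Nat.log b (x / 2) + 1) := Nat.lt_pow_succ_log_self (by omega) _
  obtain ⟨K, hKe⟩ : ∃ K : ℕ, K = Nat.log b (x / 2) := ⟨_, rfl⟩
  rw [← hKe] at hK hlow hup
  have hx0 : (0 : ℝ) < x := by exact_mod_cast (by omega : 0 < x)
  have h2 : F (2 * b ^ K) ≤ F x := hF (by omega)
  refine le_trans ?_ ((hK0 K hK).trans h2)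
  have h3 : (x : ℝ) ≤ 2 * b * (b : ℝ) ^ K := by
    have : x ≤ 2 * b * b ^ K := by
      rw [pow_succ] at hup
      have : x < 2 * (b ^ K * b) := by omega
      nlinarith
    exact_mod_cast this
  have h4 : (x : ℝ) ^ (1 + c) ≤ (2 * b : ℝ) ^ (1 + c) * ((b : ℝ) ^ K) ^ (1 + c) := by
    rw [← Real.mul_rpow (by positivity) (by positivity)]
    exact Real.rpow_le_rpow hx0.le h3 (by positivity)
  have h5 : (x : ℝ) ^ (1 + c) = (x : ℝ) ^ (1 + c / 2) * (x : ℝ) ^ (c / 2) := by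
    rw [← Real.rpow_add hx0]
    congr 1
    ring
  have h6 : (0 : ℝ) < (2 * b : ℝ) ^ (1 + c) := by positivity
  have h7 : (0 : ℝ) < (x : ℝ) ^ (1 + c / 2) := by positivity
  have h8 : (2 * b : ℝ) ^ (1 + c) * (x : ℝ) ^ (1 + c / 2)
      ≤ (2 * b : ℝ) ^ (1 + c) * ((b : ℝ) ^ K) ^ (1 + c) := by
    calc (2 * b : ℝ) ^ (1 + c) * (x : ℝ) ^ (1 + c / 2)
        = (x : ℝ) ^ (1 + c / 2) * (2 * b : ℝ) ^ (1 + c) := mul_comm _ _
      _ ≤ (x : ℝ) ^ (1 + c / 2) * (x : ℝ) ^ (c / 2) := mul_le_mul_of_nonneg_left hx1 h7.le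
      _ = (x : ℝ) ^ (1 + c) := h5.symm
      _ ≤ _ := h4
  exact le_of_mul_le_mul_left h8 h6

end Pool.Agent.Helper78.LJ
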