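import Pool.Agent.Helper57.LJ.Exp

/-! The numerical end of the argument. -/

namespace Pool.Agent.Helper78.LJ

open Finset
open Pool.Agent.Helper57.LJ (dig)
open Pool.Agent.Helper57.PC (Fr ch Wn e)

theorem final_num (b : ℕ) (hb : 2 ≤ b) (δ c1 : ℝ) (hδ : 0 < δ) (hc1 : 0 < c1) :
    ∃ c : ℝ, 0 < c ∧ ∃ K0 : ℕ, ∀ K ≥ K0, ∀ E : ℝ, 0 ≤ E →
      (δ * (b:ℝ)^K)^4 * Real.exp (c1 * K) ≤ 4 * b^K * b^(K+1) * E^2 →
      ((b:ℝ)^K)^(1+c) ≤ E := by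
  have hb1 : (1 : ℝ) < b := by exact_mod_cast (by omega : 1 < b)
  have hb0 : (0 : ℝ) < b := by linarith
  have hlog : 0 < Real.log b := Real.log_pos hb1
  refine ⟨c1 / (4 * Real.log b), by positivity, Nat.ceil (8 * b / (δ ^ 4 * c1)), ?_⟩
  intro K hK E hE h
  have hK1 : 8 * b / (δ ^ 4 * c1) ≤ K := Nat.ceil_le.1 hK
  have hX : (0 : ℝ) < (b : ℝ) ^ K := by positivity
  obtain ⟨X, hXe⟩ : ∃ X : ℝ, X = (b : ℝ) ^ K := ⟨_, rfl⟩
  have hlogX : Real.log X = K * Real.log b := by rw [hXe, Real.log_pow]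
  have e1 : X ^ (1 + c1 / (4 * Real.log b)) = X * Real.exp (c1 * K / 4) := by
    rw [← hXe] at hX
    rw [Real.rpow_add hX, Real.rpow_one]
    congr 1
    rw [Real.rpow_def_of_pos hX, hlogX]
    congr 1
    field_simp
  rw [pow_succ (b : ℝ) K, ← hXe] at h
  rw [← hXe] at hX ⊢
  rw [e1]
  obtain ⟨Y, hY⟩ : ∃ Y : ℝ, Y = Real.exp (c1 * K / 4) := ⟨_, rfl⟩
  have hY0 : 0 < Y := by rw [hY]; exact Real.exp_pos _
  have hY4 : Real.exp (c1 * K) = Y ^ 4 := by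
    rw [hY, ← Real.exp_nat_mul]
    congr 1
    push_cast
    ring
  have hY2 : 4 * b / δ ^ 4 ≤ Y ^ 2 := by
    have h1 : Y ^ 2 = Real.exp (c1 * K / 2) := by
      rw [hY, ← Real.exp_nat_mul]
      congr 1
      push_cast
      ring
    rw [h1]
    have h2 : c1 * K / 2 ≤ Real.exp (c1 * K / 2) := by
      have := Real.add_one_le_exp (c1 * K / 2)
      linarith
    refine le_trans ?_ h2
    rw [div_le_iff₀ (by positivity)] at hK1 ⊢
    nlinarith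
  rw [hY4] at h
  rw [← hY]
  have h3 : 4 * b ≤ Y ^ 2 * δ ^ 4 := by rwa [div_le_iff₀ (by positivity)] at hY2
  have h4 : (X * Y) ^ 2 ≤ E ^ 2 := by
    have h5 : (4 * b * X ^ 2) * (X * Y) ^ 2 ≤ (4 * b * X ^ 2) * E ^ 2 := by
      calc (4 * b * X ^ 2) * (X * Y) ^ 2 = (4 * b) * (X ^ 4 * Y ^ 2) := by ring
        _ ≤ (Y ^ 2 * δ ^ 4) * (X ^ 4 * Y ^ 2) := mul_le_mul_of_nonneg_right h3 (by positivity)
        _ = (δ * X) ^ 4 * Y ^ 4 := by ring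
        _ ≤ 4 * X * (X * b) * E ^ 2 := h
        _ = (4 * b * X ^ 2) * E ^ 2 := by ring
    exact le_of_mul_le_mul_left h5 (by positivity)
  exact (pow_le_pow_iff_left₀ (by positivity) hE (by norm_num)).1 h4
end Pool.Agent.Helper78.LJ
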